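import Mathlib

/-!
Project EX (MP_edb5be_nt): predecessor sets of the 3x+1 map have exponent one. Definitions.

Part A: laws on the residues modulo `K ^ k`, as periodic functions on the integers.
Part B: finite systems of digit removing maps `t ↦ (e t - C) / K`.
Part C: the system of the 3x+1 map.
-/

set_option autoImplicit false

namespace Pool.Agent.Lib.MP_edb5be_nt.EX

open Finset

/-! ### Laws -/

/-- A positive probability law on the residues modulo `q`, as a periodic function. -/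
structure Law (q : ℕ) (P : ℤ → ℝ) : Prop where
  per : ∀ x, P (x + q) = P x
  pos : ∀ x, 0 < P x
  sum : ∑ x ∈ range q, P x = 1

/-- Marginal: from the residues modulo `K ^ k` to the residues modulo `K ^ j`, `j ≤ k`. -/
noncomputable def mg (K k j : ℕ) (P : ℤ → ℝ) (x : ℤ) : ℝ :=
  ∑ u ∈ range (K ^ (k - j)), P (x + (K : ℤ) ^ j * u)

/-- Relative entropy. -/
noncomputable def KL (q : ℕ) (P R : ℤ → ℝ) : ℝ := ∑ x ∈ range q, P x * Real.log (P x / R x)

/-- Distance in `l ^ 1`. -/
noncomputable def l1 (q : ℕ) (P R : ℤ → ℝ) : ℝ := ∑ x ∈ range q, |P x - R x|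

/-- The uniform law modulo `q`. -/
noncomputable def Un (q : ℕ) (_ : ℤ) : ℝ := 1 / q

/-- Conditional law, given the residue `y` modulo `K ^ n`, of the next `J` digits. -/
noncomputable def cd (K n J : ℕ) (Q : ℤ → ℝ) (y x : ℤ) : ℝ :=
  Q (y + (K : ℤ) ^ n * x) / mg K (n + J) n Q y

/-- The window `[k, k + m)` of the law `P` modulo `K ^ J`: distance to the uniform window. -/
noncomputable def Vw (K J m : ℕ) (P : ℤ → ℝ) (k : ℕ) : ℝ :=
  l1 (K ^ (k + m)) (mg K J (k + m) P) fun u => mg K J k P u / (K : ℝ) ^ m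

/-! ### Finite entropy -/

open Classical in
/-- Mass of the class of `w` for the key `f`. -/
noncomputable def pc {ι α : Type} (W : Finset ι) (p : ι → ℝ) (f : ι → α) (w : ι) : ℝ :=
  ∑ w' ∈ W.filter (fun w' => f w' = f w), p w'

/-- Probability that `w` and `w'` have different keys `g`, where `w` has the law `p` and `w'` is
drawn again in the class of `w` for the key `f`. -/
noncomputable def df {ι α β : Type} (W : Finset ι) (p : ι → ℝ) (f : ι → α) (g : ι → β) : ℝ :=
  ∑ w ∈ W, p w * (1 - pc W p g w / pc W p f w)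

/-! ### Systems -/

/-- A finite system of digit removing maps. -/
structure Sys (V E : Type) where
  /-- The base. -/
  K : ℕ
  /-- Source of an edge. -/
  src : E → V
  /-- Target of an edge. -/
  dst : E → V
  /-- Multiplier. -/
  e : E → ℤ
  /-- Offset. -/
  C : E → ℤ
  /-- Weight. -/
  om : E → ℝ

namespace Sys

variable {V E : Type} (S : Sys V E)

/-- The edge `a` is admissible at the state `x`. -/
def ok (x : V × ℤ) (a : E) : Prop := S.src a = x.1 ∧ (S.K : ℤ) ∣ S.e a * x.2 - S.C a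

/-- The next state. -/
def nx (x : V × ℤ) (a : E) : V × ℤ := (S.dst a, (S.e a * x.2 - S.C a) / (S.K : ℤ))

/-- The end of the path `w` from `x`. -/
def en : V × ℤ → List E → V × ℤ
  | x, [] => x
  | x, a :: w => en (S.nx x a) w

/-- The multiplier of a word. -/
def mul (w : List E) : ℤ := (w.map S.e).prod

/-- The weight of a word. -/
noncomputable def wt (w : List E) : ℝ := (w.map S.om).prod

open Classical in
/-- The admissible words of length `n` from `x`. -/
noncomputable def words [Fintype E] : ℕ → V × ℤ → Finset (List E)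
  | 0, _ => {[]}
  | n + 1, x => (univ.filter (S.ok x)).biUnion fun a => (words n (S.nx x a)).image (List.cons a)

/-- The partition function. -/
noncomputable def Ph [Fintype E] (n : ℕ) (x : V × ℤ) : ℝ := ∑ w ∈ S.words n x, S.wt w

/-- The law of the words of length `n` from `x`. -/
noncomputable def pw [Fintype E] (n : ℕ) (x : V × ℤ) (w : List E) : ℝ := S.wt w / S.Ph n x

/-- The type, the target and the first `i` digits of the end of the word `w`. -/
def key (x : V × ℤ) (i : ℕ) (w : List E) : ℤ × V × ℤ :=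
  (S.mul w, (S.en x w).1, (S.en x w).2 % (S.K : ℤ) ^ i)

/-- Probability that two words with the same type and the same first `i` digits of the end have
different digits number `i`. -/
noncomputable def ci [Fintype E] (n : ℕ) (x : V × ℤ) (i : ℕ) : ℝ :=
  df (S.words n x) (S.pw n x) (S.key x i) (S.key x (i + 1))

/-- Minimum of `log Φ_n`. -/
noncomputable def lm [Fintype E] (n : ℕ) : ℝ := ⨅ x : V × ℤ, Real.log (S.Ph n x)

/-- The average of `Φ_n ^ (-ζ)` over the residues modulo `K ^ n`. -/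
noncomputable def Zv [Fintype E] (ζ : ℝ) (n : ℕ) (v : V) : ℝ :=
  (∑ t ∈ range (S.K ^ n), Real.exp (-ζ * Real.log (S.Ph n (v, (t : ℤ))))) / (S.K : ℝ) ^ n

/-- Logarithm of the largest average. -/
noncomputable def lz [Fintype E] (ζ : ℝ) (n : ℕ) : ℝ := ⨆ v : V, Real.log (S.Zv ζ n v)

/-- The Gibbs law. -/
noncomputable def Gb [Fintype E] (ζ : ℝ) (n : ℕ) (v : V) (t : ℤ) : ℝ :=
  Real.exp (-ζ * Real.log (S.Ph n (v, t))) / ((S.K : ℝ) ^ n * S.Zv ζ n v)

/-- The smallest average of `log Φ_n`. -/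
noncomputable def lE [Fintype E] (n : ℕ) : ℝ :=
  ⨅ v : V, (∑ t ∈ range (S.K ^ n), Real.log (S.Ph n (v, (t : ℤ)))) / (S.K : ℝ) ^ n

/-- The law of the digits `x` for which the end of the word `w` is a Gibbs law. -/
noncomputable def Sw [Fintype E] (ζ : ℝ) (J : ℕ) (y : V × ℤ) (w : List E) (x : ℤ) : ℝ :=
  S.Gb ζ J (S.en y w).1 ((S.en y w).2 + S.mul w * x)

/-- The free energy of the first `k` digits after the first `n` ones, for the law `P` of the digits
after the state `x`. -/
noncomputable def ek [Fintype E] (ζ : ℝ) (n J : ℕ) (x : V × ℤ) (P : ℤ → ℝ) (k : ℕ) : ℝ :=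
  -ζ * ∑ u ∈ range (S.K ^ k), mg S.K J k P u *
      (Real.log (S.Ph (n + k) (x.1, x.2 + (S.K : ℤ) ^ n * u)) - Real.log (S.Ph n x)) -
    KL (S.K ^ k) (mg S.K J k P) (Un (S.K ^ k))

/-- The weights raised to the power `s`. -/
noncomputable def pow (s : ℝ) : Sys V E := { S with om := fun a => S.om a ^ s }

/-- The hypotheses. -/
structure Good [Fintype E] (S : Sys V E) (p h B : ℕ) (κ C₁ : ℝ) : Prop where
  prime : p.Prime
  hpos : 0 < h
  K_eq : S.K = p ^ h
  cop : ∀ a, IsCoprime (S.e a) (S.K : ℤ)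
  Bpos : 0 < B
  kpos : 0 < κ
  om_pos : ∀ a, 0 < S.om a
  om_le : ∀ a, S.om a ≤ Real.exp (-κ)
  ne : ∀ x : V × ℤ, ∃ a, S.ok x a
  ph1 : ∀ x : V × ℤ, |Real.log (S.Ph 1 x)| ≤ C₁
  sep : ∀ (n : ℕ) (x : V × ℤ) (w w' : List E), w ∈ S.words n x → w' ∈ S.words n x →
    S.mul w = S.mul w' → (S.en x w).1 = (S.en x w').1 →
    (S.K : ℤ) ^ (B * n) ∣ (S.en x w).2 - (S.en x w').2 → w = w'
  poly : ∀ (n : ℕ) (x : V × ℤ), ((S.words n x).image S.mul).card ≤ B * n + 1

end Sys

/-! ### The 3x+1 map -/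

/-- The 3x+1 map on the integers. -/
def Tc (m : ℤ) : ℤ := if m % 2 = 0 then m / 2 else (3 * m + 1) / 2

/-- The numerator: `z = (2 ^ |u| y - cc u) / 3 ^ L` is the image of `y` under the word `u` of length
`L`, the first letter being applied first. -/
def cc : List ℕ → ℕ
  | [] => 0
  | _ :: u => 2 ^ u.sum + 3 * cc u

/-- The words of length `h` with letters in `[1, A]`. -/
def wds (A : ℕ) : ℕ → Finset (List ℕ)
  | 0 => {[]}
  | h + 1 => (Icc 1 A).biUnion fun a => (wds A h).image (List.cons a)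

/-- `1` or `2`. -/
def cl (b : Bool) : ℤ := if b then 1 else 2

/-- The edges of the system of level `h`. -/
def edges (h : ℕ) : Finset (List ℕ × Bool × Bool) :=
  (wds (4 * h + 4) h ×ˢ (univ : Finset (Bool × Bool))).filter fun q =>
    9 * h ≤ 5 * q.1.sum ∧
      (3 : ℤ) ∣ (cc q.1 : ℤ) + 3 ^ h * cl q.2.2 - 2 ^ q.1.sum * cl q.2.1

/-- The type of the edges. -/
def Edge (h : ℕ) : Type := {q : List ℕ × Bool × Bool // q ∈ edges h}

instance (h : ℕ) : Fintype (Edge h) :=
  inferInstanceAs (Fintype {q : List ℕ × Bool × Bool // q ∈ edges h})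

/-- The system of level `h`: the state `(v, t)` stands for `y = cl v + 3 t`. -/
noncomputable def CS (h : ℕ) : Sys Bool (Edge h) where
  K := 3 ^ h
  src a := a.1.2.1
  dst a := a.1.2.2
  e a := 2 ^ a.1.1.sum
  C a := ((cc a.1.1 : ℤ) + 3 ^ h * cl a.1.2.2 - 2 ^ a.1.1.sum * cl a.1.2.1) / 3
  om a := 3 ^ h / 2 ^ a.1.1.sum

/-- The integers between `-X` and `X` whose trajectory contains `x`. -/
def Pre (x : ℤ) (X : ℝ) : Set ℤ := {n : ℤ | (|n| : ℝ) ≤ X ∧ ∃ k : ℕ, Tc^[k] n = x}

end Pool.Agent.Lib.MP_edb5be_nt.EX
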