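import Pool.Agent.Lib.MP_edb5be_nt.EX.Defs

/-!
Project EX (MP_edb5be_nt): statements of the modules, abstract part.
Proofs on paper: `Pool/Agent/Lib/MP_edb5be_nt/EX/Paper.md`.
-/

set_option autoImplicit false

namespace Pool.Agent.Lib.MP_edb5be_nt.EX

open Finset

/-! ### Part A: laws -/

/-- SUMP: sums of periodic functions, splitting of the digits. -/
def SumPStatement : Prop :=
  (∀ (q : ℕ) (F : ℤ → ℝ) (τ e : ℤ), 0 < q → (∀ x, F (x + q) = F x) → IsCoprime e (q : ℤ) →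
    ∑ x ∈ range q, F (τ + e * x) = ∑ x ∈ range q, F x) ∧
  (∀ (K n j : ℕ) (F : ℤ → ℝ), 0 < K →
    ∑ t ∈ range (K ^ (n + j)), F t =
      ∑ y ∈ range (K ^ n), ∑ x ∈ range (K ^ j), F ((y : ℤ) + (K : ℤ) ^ n * x))

/-- MG: marginals. -/
def MgStatement : Prop :=
  ∀ (K k : ℕ) (P : ℤ → ℝ), 0 < K → Law (K ^ k) P →
    (∀ j ≤ k, Law (K ^ j) (mg K k j P)) ∧
    (∀ i j, i ≤ j → j ≤ k → mg K j i (mg K k j P) = mg K k i P) ∧
    mg K k k P = P ∧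
    (∀ (τ e : ℤ), IsCoprime e (K : ℤ) → Law (K ^ k) (fun x => P (τ + e * x)) ∧
      ∀ j ≤ k, mg K k j (fun x => P (τ + e * x)) = fun x => mg K k j P (τ + e * x))

/-- CDL: the conditional laws. -/
def CdLStatement : Prop :=
  ∀ (K n J : ℕ) (Q : ℤ → ℝ), 0 < K → Law (K ^ (n + J)) Q →
    (∀ y, Law (K ^ J) (cd K n J Q y)) ∧
    (∀ F : ℤ → ℝ, ∑ t ∈ range (K ^ (n + J)), Q t * F t =
      ∑ y ∈ range (K ^ n), mg K (n + J) n Q y *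
        ∑ x ∈ range (K ^ J), cd K n J Q y x * F ((y : ℤ) + (K : ℤ) ^ n * x)) ∧
    KL (K ^ (n + J)) Q (Un (K ^ (n + J))) = KL (K ^ n) (mg K (n + J) n Q) (Un (K ^ n)) +
      ∑ y ∈ range (K ^ n), mg K (n + J) n Q y * KL (K ^ J) (cd K n J Q y) (Un (K ^ J))

/-- KLP: relative entropy is nonnegative; Pinsker's inequality. -/
def KlPStatement : Prop :=
  ∀ (q : ℕ) (P R : ℤ → ℝ), Law q P → Law q R → 0 ≤ KL q P R ∧ l1 q P R ^ 2 ≤ 2 * KL q P R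

/-- CHAIN: the chain rule. -/
def ChainStatement : Prop :=
  ∀ (K k j : ℕ) (P R : ℤ → ℝ), 0 < K → j ≤ k → Law (K ^ k) P → Law (K ^ k) R →
    Law (K ^ k) (fun x => mg K k j P x * R x / mg K k j R x) ∧
    KL (K ^ k) P R = KL (K ^ j) (mg K k j P) (mg K k j R) +
      KL (K ^ k) P (fun x => mg K k j P x * R x / mg K k j R x)

/-- GVAR: the variational principle of Gibbs. -/
def GVarStatement : Prop :=
  ∀ (q : ℕ) (f : ℤ → ℝ), 0 < q → (∀ x, f (x + q) = f x) →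
    Law q (fun x => Real.exp (f x) / ∑ t ∈ range q, Real.exp (f t)) ∧
    ∀ P : ℤ → ℝ, Law q P →
      ∑ x ∈ range q, P x * f x - KL q P (Un q) =
        Real.log ((∑ t ∈ range q, Real.exp (f t)) / q) -
          KL q P (fun x => Real.exp (f x) / ∑ t ∈ range q, Real.exp (f t))

/-- TRANS: translations by the multiples of `δ`. -/
def TransStatement : Prop :=
  ∀ (p h K k i : ℕ) (P : ℤ → ℝ) (δ g : ℤ), p.Prime → K = p ^ h → i + 1 ≤ k →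
    (∀ x, P (x + (K ^ k : ℕ)) = P x) → (K : ℤ) ^ i ∣ δ → ¬ (K : ℤ) ^ (i + 1) ∣ δ →
    (K : ℤ) ^ (i + 1) ∣ g →
    l1 (K ^ k) P (fun x => P (x + g)) ≤ (K : ℝ) ^ (k - i) * l1 (K ^ k) P (fun x => P (x + δ))

/-- AVG: almost invariant laws are close to their averages. -/
def AvgStatement : Prop :=
  ∀ (K j m : ℕ) (P : ℤ → ℝ) (D : ℝ), 0 < K → Law (K ^ (j + m)) P →
    (∀ g : ℤ, (K : ℤ) ^ j ∣ g → l1 (K ^ (j + m)) P (fun x => P (x + g)) ≤ D) →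
    l1 (K ^ (j + m)) P (fun x => mg K (j + m) j P x / (K : ℝ) ^ m) ≤ D

/-- WIN: a law close to two laws which are translates of each other has a uniform window. -/
def WinStatement : Prop :=
  ∀ (p h K i m : ℕ) (P T : ℤ → ℝ) (δ : ℤ), p.Prime → K = p ^ h → Law (K ^ (i + 1 + m)) P →
    Law (K ^ (i + 1 + m)) T → (K : ℤ) ^ i ∣ δ → ¬ (K : ℤ) ^ (i + 1) ∣ δ →
    l1 (K ^ (i + 1 + m)) P (fun x => mg K (i + 1 + m) (i + 1) P x / (K : ℝ) ^ m) ≤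
      (K : ℝ) ^ (m + 1) * (l1 (K ^ (i + 1 + m)) P T +
        l1 (K ^ (i + 1 + m)) P (fun x => T (x + δ)))

/-- WKL: the same with relative entropies. -/
def WklStatement : Prop :=
  ∀ (p h K J i m : ℕ) (P R : ℤ → ℝ) (e τ τ' : ℤ), p.Prime → K = p ^ h → i + 1 + m ≤ J →
    Law (K ^ J) P → Law (K ^ J) R → IsCoprime e (K : ℤ) →
    (K : ℤ) ^ i ∣ τ' - τ → ¬ (K : ℤ) ^ (i + 1) ∣ τ' - τ →
    Vw K J m P (i + 1) ≤ (K : ℝ) ^ (m + 1) *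
      (√(2 * (KL (K ^ (i + 1 + m)) (mg K J (i + 1 + m) P)
            (mg K J (i + 1 + m) fun x => R (τ + e * x)) -
          KL (K ^ i) (mg K J i P) (mg K J i fun x => R (τ + e * x)))) +
        √(2 * (KL (K ^ (i + 1 + m)) (mg K J (i + 1 + m) P)
            (mg K J (i + 1 + m) fun x => R (τ' + e * x)) -
          KL (K ^ i) (mg K J i P) (mg K J i fun x => R (τ' + e * x)))))

/-! ### Part B: finite entropies -/

/-- PAIR: many pairs separate. -/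
def PairStatement : Prop :=
  ∀ (ι α : Type) (W : Finset ι) (p : ι → ℝ) (key : ℕ → ι → α) (J K : ℕ) (T : ℝ),
    (∀ w ∈ W, 0 < p w) → ∑ w ∈ W, p w = 1 →
    (∀ i, ∀ w ∈ W, ∀ w' ∈ W, key (i + 1) w = key (i + 1) w' → key i w = key i w') →
    (∀ i, ∀ w ∈ W, ∀ W' ⊆ W, (∀ w' ∈ W', key i w' = key i w) →
      (∀ w' ∈ W', ∀ w'' ∈ W', key (i + 1) w' = key (i + 1) w'' → w' = w'') → W'.card ≤ K) →
    (∀ w ∈ W, ∀ w' ∈ W, key J w = key J w' → w = w') →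
    (∀ W' ⊆ W, (∀ w' ∈ W', ∀ w'' ∈ W', key 0 w' = key 0 w'' → w' = w'') → (W'.card : ℝ) ≤ T) →
    Real.log T ≤ ∑ w ∈ W, p w * -Real.log (p w) →
    (∑ w ∈ W, p w * -Real.log (p w) - Real.log T) ^ 2 ≤
      J * K * ∑ i ∈ range J, df W p (key i) (key (i + 1))

/-- PW: averages over pairs. -/
def PwStatement : Prop :=
  ∀ (ι α β : Type) (W : Finset ι) (p g : ι → ℝ) (f : ι → α) (k : ι → β) (v : ℝ),
    (∀ w ∈ W, 0 < p w) → ∑ w ∈ W, p w = 1 → (∀ w ∈ W, 0 ≤ g w) →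
    (∀ w ∈ W, ∀ w' ∈ W, k w = k w' → f w = f w') →
    (∀ w ∈ W, ∀ w' ∈ W, f w = f w' → k w ≠ k w' → v ≤ g w + g w') →
    0 ≤ df W p f k ∧ df W p f k ≤ 1 ∧ df W p f k * v ≤ 2 * ∑ w ∈ W, p w * g w

/-! ### Part C: systems -/

/-- SG: the semigroup property. -/
def SgStatement : Prop :=
  ∀ (V E : Type) [Fintype E] (S : Sys V E) (p h B : ℕ) (κ C₁ : ℝ), S.Good p h B κ C₁ →
    (∀ (n k : ℕ) (x : V × ℤ), S.Ph (n + k) x =
      ∑ w ∈ S.words n x, S.wt w * S.Ph k (S.en x w)) ∧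
    (∀ (n : ℕ) (v : V) (t u : ℤ),
      S.words n (v, t + (S.K : ℤ) ^ n * u) = S.words n (v, t) ∧
      S.Ph n (v, t + (S.K : ℤ) ^ n * u) = S.Ph n (v, t) ∧
      ∀ w ∈ S.words n (v, t), S.en (v, t + (S.K : ℤ) ^ n * u) w =
        ((S.en (v, t) w).1, (S.en (v, t) w).2 + S.mul w * u)) ∧
    (∀ w : List E, IsCoprime (S.mul w) (S.K : ℤ)) ∧
    (∀ (n : ℕ) (x : V × ℤ), 0 < S.Ph n x ∧ |Real.log (S.Ph n x)| ≤ C₁ * n ∧
      (∀ w ∈ S.words n x, 0 < S.pw n x w) ∧ ∑ w ∈ S.words n x, S.pw n x w = 1)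

/-- LMS: the minimum of `log Φ_n`. -/
def LmSStatement : Prop :=
  ∀ (V E : Type) [Nonempty V] [Fintype E] (S : Sys V E) (p h B : ℕ) (κ C₁ : ℝ),
    S.Good p h B κ C₁ →
    (∀ (n : ℕ) (x : V × ℤ), S.lm n ≤ Real.log (S.Ph n x)) ∧
    (∀ n k : ℕ, S.lm n + S.lm k ≤ S.lm (n + k)) ∧
    ∃ Λ : ℝ, (∀ n : ℕ, S.lm n ≤ Λ * n) ∧
      Filter.Tendsto (fun n : ℕ => S.lm n / n) Filter.atTop (nhds Λ)

/-- LZS: the pressure. -/
def LzSStatement : Prop :=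
  ∀ (V E : Type) [Fintype V] [Nonempty V] [Fintype E] (S : Sys V E) (p h B : ℕ) (κ C₁ ζ : ℝ),
    S.Good p h B κ C₁ → 0 < ζ →
    (∀ n : ℕ, ∃ v : V, S.lz ζ n = Real.log (S.Zv ζ n v)) ∧
    (∀ (n : ℕ) (v : V), 0 < S.Zv ζ n v ∧ Real.log (S.Zv ζ n v) ≤ S.lz ζ n) ∧
    (∀ n : ℕ, |S.lz ζ n| ≤ ζ * C₁ * n) ∧
    (∀ n : ℕ, -(n * Real.log S.K) - ζ * S.lm n ≤ S.lz ζ n) ∧
    ∃ P : ℝ, (∀ n : ℕ, P * n ≤ S.lz ζ n) ∧
      Filter.Tendsto (fun n : ℕ => S.lz ζ n / n) Filter.atTop (nhds P)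

/-- LES: the averages of `log Φ_n`. -/
def LeSStatement : Prop :=
  ∀ (V E : Type) [Fintype V] [Nonempty V] [Fintype E] (S : Sys V E) (p h B : ℕ) (κ C₁ : ℝ),
    S.Good p h B κ C₁ →
    (∀ (n : ℕ) (v : V),
      S.lE n ≤ (∑ t ∈ range (S.K ^ n), Real.log (S.Ph n (v, (t : ℤ)))) / (S.K : ℝ) ^ n) ∧
    ∀ n : ℕ, n * S.lE 1 ≤ S.lE n

/-- GBL: the Gibbs laws of the system. -/
def GbLStatement : Prop :=
  ∀ (V E : Type) [Fintype V] [Nonempty V] [Fintype E] (S : Sys V E) (p h B : ℕ) (κ C₁ ζ : ℝ),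
    S.Good p h B κ C₁ → 0 < ζ → ∀ n : ℕ,
    (∀ v : V, Law (S.K ^ n) (S.Gb ζ n v)) ∧
    (∀ (y : V × ℤ) (w : List E), Law (S.K ^ n) (S.Sw ζ n y w)) ∧
    (∀ (v : V) (e τ : ℤ) (P : ℤ → ℝ), IsCoprime e (S.K : ℤ) → Law (S.K ^ n) P →
      ∑ x ∈ range (S.K ^ n), P x * (-ζ * Real.log (S.Ph n (v, τ + e * x))) -
          KL (S.K ^ n) P (Un (S.K ^ n)) =
        Real.log (S.Zv ζ n v) - KL (S.K ^ n) P (fun x => S.Gb ζ n v (τ + e * x)))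

/-- STAR: the main inequality. -/
def StarStatement : Prop :=
  ∀ (V E : Type) [Fintype V] [Nonempty V] [Fintype E] (S : Sys V E) (p h B : ℕ) (κ C₁ ζ : ℝ),
    S.Good p h B κ C₁ → 0 < ζ → ∀ (n J : ℕ) (v : V), S.lz ζ (n + J) = Real.log (S.Zv ζ (n + J) v) →
    ∑ y ∈ range (S.K ^ n), mg S.K (n + J) n (S.Gb ζ (n + J) v) y *
        ∑ w ∈ S.words n (v, (y : ℤ)), S.pw n (v, (y : ℤ)) w *
          KL (S.K ^ J) (cd S.K n J (S.Gb ζ (n + J) v) y) (S.Sw ζ J (v, (y : ℤ)) w) ≤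
      S.lz ζ n + S.lz ζ J - S.lz ζ (n + J)

/-- SUMW: most windows after a separating digit are nearly uniform. -/
def SumWStatement : Prop :=
  ∀ (V E : Type) [Fintype V] [Nonempty V] [Fintype E] (S : Sys V E) (p h B : ℕ) (κ C₁ ζ : ℝ),
    S.Good p h B κ C₁ → 0 < ζ → ∀ (n J m : ℕ) (x : V × ℤ) (P : ℤ → ℝ), Law (S.K ^ J) P →
    ∑ i ∈ range (J - m), S.ci n x i * Vw S.K J m P (i + 1) ≤
      2 * (S.K : ℝ) ^ (m + 1) * √(2 * J * (m + 1) *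
        ∑ w ∈ S.words n x, S.pw n x w * KL (S.K ^ J) P (S.Sw ζ J x w))

/-- PAIRS: the paths of the system separate. -/
def PairSStatement : Prop :=
  ∀ (V E : Type) [Fintype V] [Nonempty V] [Fintype E] (S : Sys V E) (p h B : ℕ) (κ C₁ : ℝ),
    S.Good p h B κ C₁ → ∀ (n J : ℕ) (x : V × ℤ), J = B * n →
    (∀ i, 0 ≤ S.ci n x i ∧ S.ci n x i ≤ 1) ∧
    (0 ≤ S.lm n + κ * n - Real.log ((B * n + 1) * Fintype.card V) →
      (S.lm n + κ * n - Real.log ((B * n + 1) * Fintype.card V)) ^ 2 ≤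
        J * S.K * ∑ i ∈ range J, S.ci n x i)

/-- FE1: the first bound of the free energy. -/
def Fe1Statement : Prop :=
  ∀ (V E : Type) [Fintype V] [Nonempty V] [Fintype E] (S : Sys V E) (p h B : ℕ) (κ C₁ ζ : ℝ),
    S.Good p h B κ C₁ → 0 < ζ → ∀ (n J k j : ℕ) (x : V × ℤ) (P : ℤ → ℝ), k + j ≤ J →
    Law (S.K ^ J) P → S.ek ζ n J x P 0 = 0 ∧
      S.ek ζ n J x P (k + j) - S.ek ζ n J x P k ≤ S.lz ζ j

/-- FE2: the second bound of the free energy. -/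
def Fe2Statement : Prop :=
  ∀ (V E : Type) [Fintype V] [Nonempty V] [Fintype E] (S : Sys V E) (p h B : ℕ) (κ C₁ ζ : ℝ),
    S.Good p h B κ C₁ → 0 < ζ → ∀ (n J k m : ℕ) (x : V × ℤ) (P : ℤ → ℝ), k + m ≤ J →
    Law (S.K ^ J) P →
    S.ek ζ n J x P (k + m) - S.ek ζ n J x P k ≤
      -ζ * S.lE m + ζ * C₁ * m * Vw S.K J m P k

/-- EKJ: the total free energy. -/
def EkJStatement : Prop :=
  ∀ (V E : Type) [Fintype V] [Nonempty V] [Fintype E] (S : Sys V E) (p h B : ℕ) (κ C₁ ζ : ℝ),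
    S.Good p h B κ C₁ → 0 < ζ → ∀ (n J : ℕ) (v : V), S.lz ζ (n + J) = Real.log (S.Zv ζ (n + J) v) →
    S.lz ζ (n + J) - S.lz ζ n ≤
      ∑ y ∈ range (S.K ^ n), mg S.K (n + J) n (S.Gb ζ (n + J) v) y *
        S.ek ζ n J (v, (y : ℤ)) (cd S.K n J (S.Gb ζ (n + J) v) y) J

/-- TELE: the telescoping sum. -/
def TeleStatement : Prop :=
  ∀ (V E : Type) [Fintype V] [Nonempty V] [Fintype E] (S : Sys V E) (p h B : ℕ)
    (κ C₁ ζ P : ℝ), S.Good p h B κ C₁ → 0 < ζ → (∀ n : ℕ, P * n ≤ S.lz ζ n) →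
    ∀ (n J m : ℕ) (v : V), 1 ≤ m → m ≤ J → S.lz ζ (n + J) = Real.log (S.Zv ζ (n + J) v) →
    ∑ y ∈ range (S.K ^ n), mg S.K (n + J) n (S.Gb ζ (n + J) v) y *
        ∑ k ∈ range (J - m + 1), (S.lz ζ m -
          (S.ek ζ n J (v, (y : ℤ)) (cd S.K n J (S.Gb ζ (n + J) v) y) (k + m) -
            S.ek ζ n J (v, (y : ℤ)) (cd S.K n J (S.Gb ζ (n + J) v) y) k)) ≤
      J * (S.lz ζ m - P * m) + m * (S.lz ζ n - P * n) + 3 * ζ * C₁ * m ^ 2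

/-- MAINQ: the quantitative inequality. -/
def MainQStatement : Prop :=
  ∀ (V E : Type) [Fintype V] [Nonempty V] [Fintype E] (S : Sys V E) (p h B : ℕ)
    (κ C₁ ζ P : ℝ), S.Good p h B κ C₁ → 0 < ζ → (∀ n : ℕ, P * n ≤ S.lz ζ n) →
    ∀ (n J m : ℕ) (σ : ℝ), 1 ≤ m → m ≤ J → J = B * n → 0 ≤ S.lz ζ m + ζ * S.lE m →
    (∀ x : V × ℤ, σ * J ≤ ∑ i ∈ range J, S.ci n x i) →
    (S.lz ζ m + ζ * S.lE m) * (σ * J - m) ≤
      J * (S.lz ζ m - P * m) + m * (S.lz ζ n - P * n) + 3 * ζ * C₁ * m ^ 2 +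
        ζ * C₁ * m * (2 * (S.K : ℝ) ^ (m + 1) *
          √(2 * J * (m + 1) * ((S.lz ζ n - P * n) + (S.lz ζ J - P * J))))

/-- THMA: the abstract theorem. -/
def ThmAStatement : Prop :=
  ∀ (V E : Type) [Fintype V] [Nonempty V] [Fintype E] (S : Sys V E) (p h B : ℕ)
    (κ C₁ Λ : ℝ), S.Good p h B κ C₁ →
    Filter.Tendsto (fun n : ℕ => S.lm n / n) Filter.atTop (nhds Λ) → -κ < Λ → S.lE 1 ≤ Λ

/-- THMB: from the exponent `s₀` to the exponent `1`. -/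
def ThmBStatement : Prop :=
  ∀ (V E : Type) [Fintype V] [Nonempty V] [Fintype E] (S : Sys V E) (p h B : ℕ)
    (κ C₁ s₀ η : ℝ), S.Good p h B κ C₁ → 0 < s₀ → s₀ ≤ 1 → 0 ≤ η → η < s₀ * κ →
    (∀ x : V × ℤ, 1 ≤ (S.pow s₀).Ph 1 x) → -η ≤ S.lE 1 →
    ∀ η' : ℝ, η < η' → ∃ n₀ : ℕ, ∀ n : ℕ, n₀ ≤ n → ∀ x : V × ℤ,
      Real.exp (-η' * n) ≤ S.Ph n x

end Pool.Agent.Lib.MP_edb5be_nt.EX
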