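import Pool.Agent.Lib.MP_edb5be_nt.EX.Iface
import Pool.Agent.Lib.MP_edb5be_nt.ND.Iface2

/-!
Project EX (MP_edb5be_nt): statements of the modules, part D: the 3x+1 map.
-/

set_option autoImplicit false

namespace Pool.Agent.Lib.MP_edb5be_nt.EX

open Finset

/-! ### Words -/

/-- WORDS: numerators of the words. -/
def WordsStatement : Prop :=
  (∀ (A h : ℕ) (u : List ℕ), u ∈ wds A h ↔ u.length = h ∧ ∀ a ∈ u, 1 ≤ a ∧ a ≤ A) ∧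
  (∀ u u' : List ℕ, cc (u ++ u') = 2 ^ u'.sum * cc u + 3 ^ u.length * cc u') ∧
  (∀ u : List ℕ, (∀ a ∈ u, 1 ≤ a) → cc u * 2 ^ u.length ≤ 2 ^ u.sum * (3 ^ u.length - 2 ^ u.length)) ∧
  (∀ u u' : List ℕ, (∀ a ∈ u, 1 ≤ a) → (∀ a ∈ u', 1 ≤ a) → u.length = u'.length →
    u.sum = u'.sum → cc u = cc u' → u = u') ∧
  (∀ u : List ℕ, (∀ a ∈ u, 1 ≤ a) → ∀ y z : ℤ, 3 ^ u.length * z + cc u = 2 ^ u.sum * y →
    Tc^[u.sum] z = y)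

/-- PHIW: the density `Phi` is a sum over words. -/
def PhiWStatement : Prop :=
  ∀ (m : ℕ) (M : ℤ), Pool.Agent.Lib.MP_0a5adf_nt.TP.Phi m M =
    ∑ u ∈ (wds (4 * m) m).filter
      (fun u => u.sum ≤ 4 * m ∧ (3 : ℤ) ^ m ∣ 2 ^ u.sum * M - cc u), (3 : ℝ) ^ m / 2 ^ u.sum

open Classical in
/-- EDGE: the admissible edges are the words which lead to an integer prime to `3`. -/
def EdgeStatement : Prop :=
  ∀ (h : ℕ) (v : Bool) (t : ℤ) (g : List ℕ → ℝ),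
    ∑ a ∈ univ.filter ((CS h).ok (v, t)), g a.1.1 =
      ∑ u ∈ (wds (4 * h + 4) h).filter (fun u => 9 * h ≤ 5 * u.sum ∧
        ∃ z : ℤ, ¬ (3 : ℤ) ∣ z ∧ 3 ^ h * z + cc u = 2 ^ u.sum * (cl v + 3 * t)), g u

/-- LOWP: lower bounds for one step. -/
def LowPStatement : Prop :=
  ∀ (h : ℕ) (x : Bool × ℤ), (3 / 256 : ℝ) ^ h ≤ (CS h).Ph 1 x ∧ 1 ≤ ((CS h).pow (1 / 8)).Ph 1 x

/-- RTAIL: the short words. -/
def RTailStatement : Prop :=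
  ∃ θ : ℝ, 0 < θ ∧ θ < 1 ∧ ∀ A h : ℕ,
    ∑ u ∈ (wds A h).filter (fun u => 5 * u.sum < 9 * h), (1 : ℝ) / 2 ^ u.sum ≤ θ ^ h

/-- RSUM: the number of the residues for which a word is admissible. -/
def RSumStatement : Prop :=
  ∀ (h : ℕ) (v : Bool) (u : List ℕ), 1 ≤ h →
    ((range (3 ^ h)).filter fun t : ℕ =>
      (3 : ℤ) ^ h ∣ 2 ^ u.sum * (cl v + 3 * (t : ℤ)) - cc u).card ≤ 3

/-- PHI2: the density is bounded by twice the partition function of one step and the short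
words. -/
def Phi2Statement : Prop :=
  ∀ (h : ℕ) (v : Bool) (t : ℤ), 1 ≤ h →
    Pool.Agent.Lib.MP_0a5adf_nt.TP.Phi (h + 1) (cl v + 3 * t) ≤
      2 * ((CS h).Ph 1 (v, t) +
        ∑ u ∈ (wds (4 * h + 4) h).filter (fun u => 5 * u.sum < 9 * h ∧
          (3 : ℤ) ^ h ∣ 2 ^ u.sum * (cl v + 3 * t) - cc u), (3 : ℝ) ^ h / 2 ^ u.sum)

/-- CLOW: the averages of `log Φ_1` are not very negative. -/
def CLowStatement : Prop :=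
  ∀ ε : ℝ, 0 < ε → ∃ h₀ : ℕ, ∀ h : ℕ, h₀ ≤ h → -(ε * h) ≤ (CS h).lE 1

/-- CREL: paths of the system and words. -/
def CRelStatement : Prop :=
  ∀ (h n : ℕ) (x : Bool × ℤ) (w : List (Edge h)), w ∈ (CS h).words n x →
    (w.map fun a => a.1.1).flatten ∈ wds (4 * h + 4) (h * n) ∧
    9 * (h * n) ≤ 5 * (w.map fun a => a.1.1).flatten.sum ∧
    (CS h).mul w = 2 ^ (w.map fun a => a.1.1).flatten.sum ∧
    (CS h).wt w = 3 ^ (h * n) / 2 ^ (w.map fun a => a.1.1).flatten.sum ∧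
    3 ^ (h * n) * (cl ((CS h).en x w).1 + 3 * ((CS h).en x w).2) +
        cc (w.map fun a => a.1.1).flatten =
      2 ^ (w.map fun a => a.1.1).flatten.sum * (cl x.1 + 3 * x.2) ∧
    ∀ w' ∈ (CS h).words n x,
      (w.map fun a => a.1.1).flatten = (w'.map fun a => a.1.1).flatten → w = w'

/-- CGOOD: the hypotheses of the abstract theorem. -/
def CGoodStatement : Prop :=
  ∀ h : ℕ, 1 ≤ h → ∃ C₁ : ℝ,
    (CS h).Good 3 h ((4 * h + 4) * h) (h / 5 * Real.log (512 / 243)) C₁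

/-- BRAN: many predecessors in bounded time. -/
def BranStatement : Prop :=
  ∀ ε : ℝ, 0 < ε → ε < 1 → ∃ D R : ℝ, 0 ≤ D ∧ ∀ y : ℤ, ¬ (3 : ℤ) ∣ y →
    ∃ (ρ : ℝ) (b : ℕ) (Z : Finset ℤ), 2 ≤ ρ ∧ ρ ≤ R ∧ 1 ≤ b ∧ ρ ^ (1 - ε) + 1 ≤ (Z.card : ℝ) ∧
      ∀ z ∈ Z, ¬ (3 : ℤ) ∣ z ∧ Tc^[b] z = y ∧ |(z : ℝ)| + D ≤ ρ * (|(y : ℝ)| + D)

/-- COUNT: the main theorem. -/
def CountStatement : Prop :=
  ∀ ε : ℝ, 0 < ε → ∃ c : ℝ, 0 < c ∧ ∀ x : ℤ, ¬ (3 : ℤ) ∣ x → ∀ X : ℝ, |(x : ℝ)| ≤ X →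
    c * (X / |(x : ℝ)|) ^ (1 - ε) ≤ ((Pre x X).ncard : ℝ)

/-- EXPO: the growth exponent is `1`. -/
def ExpoStatement : Prop :=
  ∀ a : ℤ, ¬ (3 : ℤ) ∣ a →
    Filter.Tendsto (fun X : ℝ => Real.log ((Pre a X).ncard : ℝ) / Real.log X)
      Filter.atTop (nhds 1)

end Pool.Agent.Lib.MP_edb5be_nt.EX
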